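import Pool.Agent.Helper24.FF.Stmts

/-! Full list for MP_866009_co: broken ladders. -/

set_option autoImplicit false

namespace Pool.Agent.Helper24.FF

open Pool.Agent.Helper64.CT Pool.Agent.Helper64.DT Pool.Agent.Helper64.FL
open Pool.Agent.Helper64.HG (Ovl Model Circ IC HellyCircle ChordModel)
open scoped Classical

/-- parts of an induced path -/
theorem lb_ip {V : Type} {G : SimpleGraph V} {z : V} {B : List V} : ∀ A : List V,
    IPt G (A ++ z :: B) → IPt G A ∧ IPt G (z :: B) ∧ (∀ x ∈ A, ∀ y ∈ z :: B, x ≠ y) ∧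
      ∀ x ∈ A, ∀ y ∈ B, ¬ G.Adj x y
  | [], h => ⟨trivial, h, by simp, by simp⟩
  | a :: A, h => by
    obtain ⟨h1, h2, h3, h4⟩ := h
    obtain ⟨i1, i2, i3, i4⟩ := lb_ip A h4
    refine ⟨⟨fun x hx => h1 x (by simp [hx]), fun b hb => h2 b ?_, fun x hx => h3 x ?_, i1⟩, i2,
      ?_, ?_⟩
    · cases A with
      | nil => simp at hb
      | cons c A => simpa using hb
    · cases A with
      | nil => simp at hx
      | cons c A => simp only [List.tail_cons] at hx; simp [hx]
    · intro x hx y hy
      rcases List.mem_cons.1 hx with e | hx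
      · rw [e]; exact h1 y (List.mem_append_right A hy)
      · exact i3 x hx y hy
    · intro x hx y hy
      rcases List.mem_cons.1 hx with e | hx
      · rw [e]
        apply h3 y
        cases A with
        | nil => simpa using hy
        | cons c A => simp [hy]
      · exact i4 x hx y hy

theorem lb_mid {V : Type} {G : SimpleGraph V} {h k z : V} {M M1 M2 : List V} {a b : Bool}
    (hL : LadM G h k M a b) (e : M = M1 ++ z :: M2) :
    (∀ x ∈ M1, M1.head? ≠ some x → (G.Adj h x ↔ G.Adj k x)) ∧
    ∀ x ∈ M2, M2.getLast? ≠ some x → (G.Adj h x ↔ G.Adj k x) := by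
  subst e
  obtain ⟨i1, i2, i3, i4⟩ := lb_ip M1 hL.ip
  constructor
  · intro x hx hne
    refine hL.mid x (by simp [hx]) ?_ ?_
    · cases M1 with
      | nil => simp at hx
      | cons c M1 => simpa using hne
    · intro h'
      have h'' : x ∈ z :: M2 := by
        rw [List.getLast?_append, List.getLast?_eq_some_getLast (List.cons_ne_nil z M2)] at h'
        simp only [Option.some_or, Option.some.injEq] at h'
        rw [← h']
        exact List.getLast_mem _
      exact i3 x hx x h'' rfl
  · intro x hx hne
    refine hL.mid x (by simp [hx]) ?_ ?_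
    · intro h'
      cases M1 with
      | nil =>
        simp only [List.nil_append, List.head?_cons, Option.some.injEq] at h'
        exact i2.1 x hx h'
      | cons c M1 =>
        simp only [List.cons_append, List.head?_cons, Option.some.injEq] at h'
        exact i3 c (by simp) x (by simp [hx]) h'
    · intro h'
      apply hne
      cases M2 with
      | nil => simp at hx
      | cons d M2 =>
        rw [List.getLast?_append, List.getLast?_cons_cons,
          List.getLast?_eq_some_getLast (List.cons_ne_nil d M2)] at h'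
        simp only [Option.some_or] at h'
        rw [List.getLast?_eq_some_getLast (List.cons_ne_nil d M2)]
        exact h'

/-- the first part of a broken ladder -/
theorem lb_E2 (hM0 : ST_M0) (hRUN : ST_RUN) (hM7 : ST_M7) {V : Type} {G : SimpleGraph V}
    {h k z : V} {M M1 M2 : List V} {b : Bool} (hL : LadM G h k M true b)
    (e : M = M1 ++ z :: M2) : E2 G ({h, k} ∪ LS M1) h k := by
  obtain ⟨m1, m2⟩ := hM0 V G h k hL.ne hL.nadj
  obtain ⟨q1, q2⟩ := lb_mid hL e
  have hh : ∀ x ∈ M1, x ≠ h ∧ x ≠ k := by
    intro x hx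
    refine ⟨fun e' => hL.hM ?_, fun e' => hL.kM ?_⟩
    · rw [← e', e]; simp [hx]
    · rw [← e', e]; simp [hx]
  cases M1 with
  | nil =>
    have : ({h, k} ∪ LS ([] : List V) : Set V) = {h, k} := by
      ext x; simp [LS]
    rw [this]; exact m1
  | cons p N =>
    have hfst := hL.fst p (by rw [e]; simp)
    have hp1 : G.Adj h p := hfst.1.2 rfl
    have hp2 : ¬ G.Adj k p := fun h' => by simpa using hfst.2.1 h'
    have hF := m2 p (hh p (by simp)).1 (hh p (by simp)).2 hp1 hp2
    obtain ⟨i1, i2, i3, i4⟩ := lb_ip (p :: N) (e ▸ hL.ip)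
    have hR := hRUN V G {p, h, k} h k p ((p :: N).getLast (List.cons_ne_nil p N)) N hF i1
      (by
        intro x hx hx'
        simp only [Set.mem_insert_iff, Set.mem_singleton_iff] at hx'
        rcases hx' with h' | h' | h'
        · exact i1.1 x hx h'.symm
        · exact (hh x (by simp [hx])).1 h'
        · exact (hh x (by simp [hx])).2 h')
      (by
        intro x hx
        refine q1 x (by simp [hx]) ?_
        intro h'
        simp only [List.head?_cons, Option.some.injEq] at h'
        exact i1.1 x hx h')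
      (by
        intro x hx y hy h1 h2 h3
        simp only [Set.mem_insert_iff, Set.mem_singleton_iff] at hy
        rcases hy with h' | h' | h'
        · exact absurd h' h3
        · exact absurd h' h1
        · exact absurd h' h2)
      (List.getLast?_eq_some_getLast (List.cons_ne_nil p N))
    have hS : ({h, k} ∪ LS (p :: N) : Set V) = {p, h, k} ∪ LS N := by
      ext x
      simp only [LS, Set.mem_union, Set.mem_insert_iff, Set.mem_singleton_iff, List.mem_cons,
        Set.mem_ofPred_eq]
      tauto
    rw [hS]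
    obtain ⟨u1, u2, -⟩ := hM7 V G ({p, h, k} ∪ LS N) h k
    obtain ⟨v1, v2, -⟩ := hM7 V G ({p, h, k} ∪ LS N) k h
    by_cases hev : Even (rungs G h k N)
    · rw [if_pos hev, if_pos hev] at hR
      exact u1 _ hR
    · rw [if_neg hev, if_neg hev] at hR
      exact v2 (v1 _ hR)

/-- the second part of a broken ladder; `C` contains further vertices -/
theorem lb_fin (hRP : ST_RP) (hM7 : ST_M7) {V : Type} {G : SimpleGraph V}
    {h k z : V} {M M1 M2 : List V} {a b : Bool} (hL : LadM G h k M a b)
    (e : M = M1 ++ z :: M2) (C : Set V) (hC : ∀ x ∈ M2, x ∉ C ∧ ∀ y ∈ C, ¬ G.Adj x y)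
    (hE : E2 G (C ∪ ({h, k} ∪ LS M1)) h k) : CE G (C ∪ ({h, k} ∪ LS M1 ∪ LS M2)) := by
  obtain ⟨q1, q2⟩ := lb_mid hL e
  have hS : (C ∪ ({h, k} ∪ LS M1 ∪ LS M2) : Set V) = (C ∪ ({h, k} ∪ LS M1)) ∪ LS M2 := by
    rw [Set.union_assoc C]
  rw [hS]
  have hh : ∀ x ∈ M2, x ≠ h ∧ x ≠ k := by
    intro x hx
    refine ⟨fun e' => hL.hM ?_, fun e' => hL.kM ?_⟩
    · rw [← e', e]; simp [hx]
    · rw [← e', e]; simp [hx]
  obtain ⟨i1, i2, i3, i4⟩ := lb_ip M1 (e ▸ hL.ip)
  by_cases hM2 : M2 = []
  · subst hM2
    have : (LS ([] : List V) : Set V) = ∅ := by ext x; simp [LS]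
    rw [this, Set.union_empty]
    exact (hM7 V G _ h k).2.2 hE
  · refine hRP V G _ h k M2 hE i2.2.2.2 hM2 ?_ ?_ q2 ?_
    · intro x hx hx'
      rcases hx' with h' | h' | h'
      · exact (hC x hx).1 h'
      · simp only [Set.mem_insert_iff, Set.mem_singleton_iff] at h'
        rcases h' with h' | h'
        · exact (hh x hx).1 h'
        · exact (hh x hx).2 h'
      · exact i3 x h' x (by simp [hx]) rfl
    · intro x hx y hy hyh hyk
      rcases hy with h' | h' | h'
      · exact (hC x hx).2 y h'
      · simp only [Set.mem_insert_iff, Set.mem_singleton_iff] at h'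
        rcases h' with h' | h'
        · exact absurd h' hyh
        · exact absurd h' hyk
      · exact fun h'' => i4 y h' x hx h''.symm
    · intro x hx
      have hx' : M.getLast? = some x := by
        rw [e]
        cases M2 with
        | nil => exact absurd rfl hM2
        | cons d M2 =>
          rw [List.getLast?_append, List.getLast?_cons_cons]
          rw [Option.mem_def] at hx
          rw [hx]; rfl
      have := hL.lst x hx'
      rw [this.1, this.2]
      cases b <;> simp

theorem lb_main (hM0 : ST_M0) (hRUN : ST_RUN) (hRP : ST_RP) (hM7 : ST_M7) {V : Type}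
    {G : SimpleGraph V} {h k z : V} {M M1 M2 : List V} {b : Bool} (hL : LadM G h k M true b)
    (e : M = M1 ++ z :: M2) : CE G ({h, k} ∪ LS M1 ∪ LS M2) := by
  have := lb_fin hRP hM7 hL e ∅ (fun x _ => ⟨Set.notMem_empty x, fun y hy => absurd hy
    (Set.notMem_empty y)⟩) (by rw [Set.empty_union]; exact lb_E2 hM0 hRUN hM7 hL e)
  rwa [Set.empty_union] at this

theorem st_LB (hM0 : ST_M0) (hRUN : ST_RUN) (hRP : ST_RP) (hM7 : ST_M7) (hLSY : ST_LSY) :
    ST_LB := by
  intro V G h k z M M1 M2 a b hL e
  cases a with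
  | true => exact lb_main hM0 hRUN hRP hM7 hL e
  | false =>
    have h1 := (hLSY V G h k M false b hL).1
    have h2 := lb_main hM0 hRUN hRP hM7 h1 e
    rwa [Set.pair_comm] at h2

end Pool.Agent.Helper24.FF
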