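import Pool.Agent.Helper54.FF.LB

/-! Full list for MP_866009_co: broken ladders with a connector. -/

set_option autoImplicit false

namespace Pool.Agent.Helper24.FF

open Pool.Agent.Helper64.CT Pool.Agent.Helper64.DT Pool.Agent.Helper64.FL
open Pool.Agent.Helper64.HG (Ovl Model Circ IC HellyCircle ChordModel)
open scoped Classical

theorem lbc_main (hM0 : ST_M0) (hRUN : ST_RUN) (hRP : ST_RP) (hM7 : ST_M7) (hM5 : ST_M5)
    {V : Type} {G : SimpleGraph V} {h k z c : V} {M M1 M2 : List V} {b : Bool}
    (hL : LadM G h k M true b) (e : M = M1 ++ z :: M2) (hc : c ∉ M)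
    (hcA : ∀ x, (G.Adj c x ↔ (x = h ∨ x = k))) :
    CE G (insert c ({h, k} ∪ LS M1 ∪ LS M2)) := by
  have hE := lb_E2 hM0 hRUN hM7 hL e
  have hch : c ≠ h := fun e' => by
    have := (hcA h).2 (Or.inl rfl)
    rw [e'] at this
    exact G.loopless.irrefl _ this
  have hck : c ≠ k := fun e' => by
    have := (hcA k).2 (Or.inr rfl)
    rw [e'] at this
    exact G.loopless.irrefl _ this
  have hcS : c ∉ ({h, k} ∪ LS M1 : Set V) := by
    rintro (h' | h')
    · simp only [Set.mem_insert_iff, Set.mem_singleton_iff] at h'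
      rcases h' with h' | h'
      · exact hch h'
      · exact hck h'
    · apply hc
      rw [e]
      exact List.mem_append_left _ h'
  have hE' := (hM5 V G _ h k c hE hcS (fun y _ => hcA y)).2
  have := lb_fin hRP hM7 hL e {c} (fun x hx => ⟨fun h' => ?_, fun y hy => ?_⟩)
    (by rw [Set.singleton_union]; exact hE')
  · rwa [Set.singleton_union] at this
  · rw [Set.mem_singleton_iff] at h'
    apply hc
    rw [e, ← h']
    exact List.mem_append_right _ (List.mem_cons_of_mem _ hx)
  · rw [Set.mem_singleton_iff] at hy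
    subst hy
    intro h'
    rcases (hcA x).1 h'.symm with h' | h'
    · apply hL.hM
      rw [e, ← h']
      exact List.mem_append_right _ (List.mem_cons_of_mem _ hx)
    · apply hL.kM
      rw [e, ← h']
      exact List.mem_append_right _ (List.mem_cons_of_mem _ hx)

theorem st_LBC (hM0 : ST_M0) (hRUN : ST_RUN) (hRP : ST_RP) (hM7 : ST_M7) (hM5 : ST_M5)
    (hLSY : ST_LSY) : ST_LBC := by
  intro V G h k z c M M1 M2 a b hL e hc hcA
  cases a with
  | true => exact lbc_main hM0 hRUN hRP hM7 hM5 hL e hc hcA
  | false =>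
    have h1 := (hLSY V G h k M false b hL).1
    have h2 := lbc_main hM0 hRUN hRP hM7 hM5 h1 e hc (fun x => by rw [hcA x, or_comm])
    rwa [Set.pair_comm] at h2

end Pool.Agent.Helper24.FF
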