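import Pool.Agent.Helper24.FF.Stmts

/-! Full list for MP_866009_co: minimal ladder configurations are ladders. -/

set_option autoImplicit false

namespace Pool.Agent.Helper24.FF

open Pool.Agent.Helper64.CT Pool.Agent.Helper64.DT Pool.Agent.Helper64.FL
open Pool.Agent.Helper64.HG (Ovl Model Circ IC HellyCircle ChordModel)
open scoped Classical

theorem lf3_three {V : Type} {G : SimpleGraph V} {h k : V} {M : List V} {r1 r2 r3 : V}
    (m1 : r1 ∈ M) (m2 : r2 ∈ M) (m3 : r3 ∈ M) (n12 : r1 ≠ r2) (n13 : r1 ≠ r3) (n23 : r2 ≠ r3)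
    (a1 : G.Adj h r1 ∧ G.Adj k r1) (a2 : G.Adj h r2 ∧ G.Adj k r2) (a3 : G.Adj h r3 ∧ G.Adj k r3) :
    3 ≤ rungs G h k M := by
  unfold rungs
  have h1 : ({r1, r2, r3} : Finset V) ⊆
      (M.filter (fun x => decide (G.Adj h x ∧ G.Adj k x))).toFinset := by
    intro x hx
    simp only [Finset.mem_insert, Finset.mem_singleton] at hx
    rw [List.mem_toFinset, List.mem_filter]
    rcases hx with e | e | e
    · subst e; exact ⟨m1, by simpa using a1⟩
    · subst e; exact ⟨m2, by simpa using a2⟩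
    · subst e; exact ⟨m3, by simpa using a3⟩
  have h2 : ({r1, r2, r3} : Finset V).card = 3 := by
    rw [Finset.card_eq_three]
    exact ⟨r1, r2, r3, n12, n13, n23, rfl⟩
  calc 3 = ({r1, r2, r3} : Finset V).card := h2.symm
    _ ≤ _ := Finset.card_le_card h1
    _ ≤ _ := List.toFinset_card_le _

theorem lf3_two {V : Type} {M : List V} {r1 r2 : V} (m1 : r1 ∈ M) (m2 : r2 ∈ M)
    (n12 : r1 ≠ r2) : 2 ≤ M.length := by
  match M, m1, m2 with
  | [x], m1, m2 =>
    rw [List.mem_singleton] at m1 m2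
    exact absurd (m1.trans m2.symm) n12
  | x :: y :: M, _, _ => simp

theorem st_LF3 (hLBL : ST_LBL) (hLNJ : ST_LNJ) (hNNS : ST_NNS) : ST_LF3 := by
  intro V G hRed hLd
  obtain ⟨c, h, k, M, hip, hch, hck, hhk, hnhk, hM, hfst, hlst, hr, hcov⟩ := hLd
  have hmid := hLBL V G c h k M hRed hip hch hck hhk hnhk hM hfst hlst hr
  obtain ⟨r1, m1, r2, m2, r3, m3, n12, n13, n23, a1, b1, a2, b2, a3, b3⟩ := hr
  have hthree : 3 ≤ rungs G h k M :=
    lf3_three m1 m2 m3 n12 n13 n23 ⟨a1, b1⟩ ⟨a2, b2⟩ ⟨a3, b3⟩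
  have htwo := lf3_two m1 m2 n12
  have hne : M ≠ [] := by rintro rfl; simp at m1
  -- the ends
  obtain ⟨s, hs⟩ : ∃ s, M.head? = some s := ⟨M.head hne, List.head?_eq_some_head hne⟩
  obtain ⟨t, ht⟩ : ∃ t, M.getLast? = some t := ⟨M.getLast hne, List.getLast?_eq_some_getLast hne⟩
  have hL : LadM G h k M (decide (G.Adj h s)) (decide (G.Adj h t)) := by
    refine ⟨hip, htwo, hhk, hnhk, fun h' => (hM h h').2.1 rfl, fun h' => (hM k h').2.2.1 rfl,
      ?_, ?_, ?_, ?_⟩
    · intro x hx
      have e : s = x := by rw [hs] at hx; exact Option.some.inj hx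
      subst e
      have := hfst s hs
      unfold Pool.Agent.Helper64.FL.Pure at this
      rw [decide_eq_true_iff, decide_eq_false_iff_not]
      tauto
    · intro x hx
      have e : t = x := by rw [ht] at hx; exact Option.some.inj hx
      subst e
      have := hlst t ht
      unfold Pool.Agent.Helper64.FL.Pure at this
      rw [decide_eq_true_iff, decide_eq_false_iff_not]
      tauto
    · intro x hx h1 h2
      have := hmid x hx h1 h2
      unfold Pool.Agent.Helper64.FL.Pure at this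
      tauto
    · rintro x hx y hy hxy ⟨h1, h2, h3, h4⟩
      exact hnhk (hRed.df x y h k hxy h1.symm h3.symm h2.symm h4.symm hhk)
  have hsub : ({h, k} ∪ LS M : Set V) ⊆ {v | v ≠ c} := by
    rintro x (hx | hx)
    · simp only [Set.mem_insert_iff, Set.mem_singleton_iff] at hx
      rcases hx with e | e
      · rw [e]; exact hch.ne.symm
      · rw [e]; exact hck.ne.symm
    · exact (hM x hx).1
  refine ⟨c, h, k, M, _, _, hL, hcov, fun h' => (hM c h').1 rfl, fun x => ⟨fun hx => ?_, ?_⟩, ?_⟩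
  · rcases hcov x with e | e | e | e
    · rw [e] at hx; exact absurd hx (G.loopless.irrefl _)
    · exact Or.inl e
    · exact Or.inr e
    · exact absurd hx (hM x e).2.2.2
  · rintro (e | e)
    · rw [e]; exact hch
    · rw [e]; exact hck
  · by_contra hcon
    refine hLNJ V G h k M _ _ hL (by omega) (fun e => by omega) ?_
      ((hNNS V G {v | v ≠ c}).2 _ hsub (hRed.naj c))
    by_cases e : decide (G.Adj h s) = decide (G.Adj h t)
    · refine ⟨fun _ => ?_, fun _ => e⟩
      by_contra ho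
      exact hcon (Or.inl ⟨e, Nat.not_odd_iff_even.1 ho, by omega⟩)
    · refine ⟨fun e' => absurd e' e, fun ho => ?_⟩
      exact absurd (Or.inr (Or.inl ⟨e, ho, hthree⟩)) hcon

end Pool.Agent.Helper24.FF
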