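import Pool.Agent.Helper24.FF.Stmts

/-! Full list for MP_866009_co: rings are diamond-free. -/

set_option autoImplicit false

namespace Pool.Agent.Helper24.FF

open Pool.Agent.Helper64.CT Pool.Agent.Helper64.DT Pool.Agent.Helper64.FL
open Pool.Agent.Helper64.HG (Ovl Model Circ IC HellyCircle ChordModel)
open scoped Classical

theorem rdf_nbr {V : Type} {G : SimpleGraph V} {a y : V} {l : List V} (h : IPt G (a :: l))
    (hy : y ∈ l) (hay : G.Adj a y) : l.head? = some y := by
  obtain ⟨h1, h2, h3, h4⟩ := h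
  cases l with
  | nil => simp at hy
  | cons b l =>
    simp only [List.tail_cons] at h3
    rcases List.mem_cons.1 hy with e | e
    · simp [e]
    · exact absurd hay (h3 y e)

/-- no triangles in an induced path -/
theorem rdf_notri {V : Type} {G : SimpleGraph V} : ∀ (l : List V), IPt G l →
    ∀ x ∈ l, ∀ y ∈ l, ∀ z ∈ l, G.Adj x y → G.Adj x z → G.Adj y z → False
  | [], _, x, hx, _, _, _, _, _, _, _ => by simp at hx
  | a :: l, h, x, hx, y, hy, z, hz, hxy, hxz, hyz => by
    have key : ∀ u v w : V, u = a → v ∈ a :: l → w ∈ a :: l → G.Adj u v → G.Adj u w →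
        G.Adj v w → False := by
      intro u v w hu hv hw h1 h2 h3
      subst hu
      rcases List.mem_cons.1 hv with e | hv'
      · exact h1.ne e.symm
      rcases List.mem_cons.1 hw with e | hw'
      · exact h2.ne e.symm
      have e1 := rdf_nbr h hv' h1
      have e2 := rdf_nbr h hw' h2
      rw [e1] at e2
      exact h3.ne (Option.some.inj e2)
    rcases List.mem_cons.1 hx with e | hx'
    · exact key x y z e hy hz hxy hxz hyz
    rcases List.mem_cons.1 hy with e | hy'
    · exact key y x z e hx hz hxy.symm hyz hxz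
    rcases List.mem_cons.1 hz with e | hz'
    · exact key z x y e hx hy hxz.symm hyz.symm hxy
    exact rdf_notri l h.2.2.2 x hx' y hy' z hz' hxy hxz hyz

/-- the first vertex of an induced path with two vertices is not the last one -/
theorem rdf_hl {V : Type} {G : SimpleGraph V} {l : List V} {x : V} (h : IPt G l)
    (hl : 2 ≤ l.length) (h1 : l.head? = some x) (h2 : l.getLast? = some x) : False := by
  match l, hl with
  | a :: b :: l, _ =>
    simp only [List.head?_cons, Option.some.injEq] at h1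
    have h3 : x ∈ b :: l := by
      rw [List.getLast?_cons_cons] at h2
      exact List.mem_of_getLast? h2
    exact h.1 x h3 h1

/-- a vertex of a link is in no triangle -/
theorem rdf_link {V : Type} {G : SimpleGraph V} {m : ℕ} {n : ℕ → V} {P : ℕ → List V}
    (hR : Ring G m n P) {i : ℕ} (hi : i < m) {x y z : V} (hx : x ∈ P i)
    (hy : (∃ j, j < m ∧ y = n j) ∨ ∃ j, j < m ∧ y ∈ P j)
    (hz : (∃ j, j < m ∧ z = n j) ∨ ∃ j, j < m ∧ z ∈ P j)
    (hxy : G.Adj x y) (hxz : G.Adj x z) (hyz : G.Adj y z) : False := by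
  have hcase : ∀ {u : V}, ((∃ j, j < m ∧ u = n j) ∨ ∃ j, j < m ∧ u ∈ P j) → G.Adj x u →
      u = n i ∨ u = n ((i + 1) % m) ∨ u ∈ P i := by
    rintro u (⟨j, hj, e⟩ | ⟨j, hj, hu⟩) hxu
    · by_cases e1 : j = i
      · left; rw [e, e1]
      by_cases e2 : j = (i + 1) % m
      · right; left; rw [e, e2]
      · exact absurd (e ▸ hxu.symm) (hR.cln i j hi hj e1 e2 x hx)
    · by_cases e1 : j = i
      · right; right; rw [← e1]; exact hu
      · exact absurd hxu (hR.sep i j hi hj (fun e => e1 e.symm) x hx u hu).2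
  have two : ∀ {u v : V}, u = n i → v = n ((i + 1) % m) → G.Adj x u → G.Adj x v → False := by
    intro u v hu hv h1 h2
    subst hu; subst hv
    exact rdf_hl (hR.pth i hi) (hR.len i hi) ((hR.fst i hi x hx).1 h1.symm)
      ((hR.lst i hi x hx).1 h2.symm)
  have one1 : ∀ {u v : V}, u = n i → v ∈ P i → G.Adj x u → G.Adj x v → G.Adj u v → False := by
    intro u v hu hv h1 h2 h3
    subst hu
    have e1 := (hR.fst i hi x hx).1 h1.symm
    have e2 := (hR.fst i hi v hv).1 h3
    rw [e1] at e2
    exact h2.ne (Option.some.inj e2)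
  have one2 : ∀ {u v : V}, u = n ((i + 1) % m) → v ∈ P i → G.Adj x u → G.Adj x v → G.Adj u v →
      False := by
    intro u v hu hv h1 h2 h3
    subst hu
    have e1 := (hR.lst i hi x hx).1 h1.symm
    have e2 := (hR.lst i hi v hv).1 h3
    rw [e1] at e2
    exact h2.ne (Option.some.inj e2)
  rcases hcase hy hxy with e1 | e1 | e1 <;> rcases hcase hz hxz with e2 | e2 | e2
  · exact hyz.ne (e1.trans e2.symm)
  · exact two e1 e2 hxy hxz
  · exact one1 e1 e2 hxy hxz hyz
  · exact two e2 e1 hxz hxy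
  · exact hyz.ne (e1.trans e2.symm)
  · exact one2 e1 e2 hxy hxz hyz
  · exact one1 e2 e1 hxz hxy hyz.symm
  · exact one2 e2 e1 hxz hxy hyz.symm
  · exact rdf_notri (P i) (hR.pth i hi) x hx y e1 z e2 hxy hxz hyz

/-- the common part -/
theorem rdf_main {V : Type} {G : SimpleGraph V} {m : ℕ} {n : ℕ → V} {P : ℕ → List V}
    (hR : Ring G m n P) (C : Set V) (h1 : ∀ c ∈ C, ∀ c' ∈ C, c = c')
    (h2 : ∀ c ∈ C, ∀ x, G.Adj c x ↔ ∃ i, i < m ∧ x = n i)
    (h3 : ∀ x, x ∈ C ∨ (∃ i, i < m ∧ x = n i) ∨ ∃ i, i < m ∧ x ∈ P i) : DF G := by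
  have hcl : ∀ {x y z : V}, G.Adj x y → G.Adj x z → G.Adj y z →
      x ∈ C ∨ ∃ i, i < m ∧ x = n i := by
    intro x y z hxy hxz hyz
    rcases h3 x with h | h | ⟨i, hi, h⟩
    · exact Or.inl h
    · exact Or.inr h
    · exfalso
      have hcov : ∀ {u : V}, G.Adj x u → (∃ j, j < m ∧ u = n j) ∨ ∃ j, j < m ∧ u ∈ P j := by
        intro u hu
        rcases h3 u with h' | h'
        · obtain ⟨j, hj, e⟩ := (h2 u h' x).1 hu.symm
          exact absurd e (hR.dis i j hi hj x h)
        · exact h'
      exact rdf_link hR hi h (hcov hxy) (hcov hxz) hxy hxz hyz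
  intro a b c d hab hac hbc had hbd hcd
  have hc := hcl hac.symm hbc.symm hab
  have hd := hcl had.symm hbd.symm hab
  rcases hc with hc | ⟨i, hi, ei⟩ <;> rcases hd with hd | ⟨j, hj, ej⟩
  · exact absurd (h1 c hc d hd) hcd
  · exact (h2 c hc d).2 ⟨j, hj, ej⟩
  · exact ((h2 d hd c).2 ⟨i, hi, ei⟩).symm
  · subst ei; subst ej
    exact hR.clq i j hi hj (fun e => hcd (by rw [e]))

theorem st_RDF : ST_RDF := by
  rintro V G (⟨m, n, P, hR, -, -, hc⟩ | ⟨c, m, n, P, hR, -, -, hc1, hc⟩)
  · refine rdf_main hR ∅ (fun c hc => absurd hc (Set.notMem_empty c))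
      (fun c hc => absurd hc (Set.notMem_empty c)) (fun x => Or.inr (hc x))
  · refine rdf_main hR {c} (fun x hx y hy => ?_) (fun x hx => ?_) (fun x => ?_)
    · rw [Set.mem_singleton_iff] at hx hy; rw [hx, hy]
    · rw [Set.mem_singleton_iff] at hx; subst hx; exact hc1
    · rcases hc x with h | h
      · left; exact h
      · right; exact h

end Pool.Agent.Helper24.FF
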