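import Pool.Agent.Helper24.FF.Stmts

/-! Full list for MP_866009_co: the entries of the table are diamond-free. -/

set_option autoImplicit false

namespace Pool.Agent.Helper24.FF

open Pool.Agent.Helper64.CT Pool.Agent.Helper64.DT Pool.Agent.Helper64.FL
open Pool.Agent.Helper64.HG (Ovl Model Circ IC HellyCircle ChordModel)
open scoped Classical

theorem tdf_nbr {V : Type} {G : SimpleGraph V} {a y : V} {l : List V} (h : IPt G (a :: l))
    (hy : y ∈ l) (hay : G.Adj a y) : l.head? = some y := by
  obtain ⟨h1, h2, h3, h4⟩ := h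
  cases l with
  | nil => simp at hy
  | cons b l =>
    simp only [List.tail_cons] at h3
    rcases List.mem_cons.1 hy with e | e
    · simp [e]
    · exact absurd hay (h3 y e)

/-- no triangles in an induced path -/
theorem tdf_notri {V : Type} {G : SimpleGraph V} : ∀ (l : List V), IPt G l →
    ∀ x ∈ l, ∀ y ∈ l, ∀ z ∈ l, G.Adj x y → G.Adj x z → G.Adj y z → False
  | [], _, x, hx, _, _, _, _, _, _, _ => by simp at hx
  | a :: l, h, x, hx, y, hy, z, hz, hxy, hxz, hyz => by
    have key : ∀ u v w : V, u = a → v ∈ a :: l → w ∈ a :: l → G.Adj u v → G.Adj u w →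
        G.Adj v w → False := by
      intro u v w hu hv hw h1 h2 h3
      subst hu
      rcases List.mem_cons.1 hv with e | hv'
      · exact h1.ne e.symm
      rcases List.mem_cons.1 hw with e | hw'
      · exact h2.ne e.symm
      have e1 := tdf_nbr h hv' h1
      have e2 := tdf_nbr h hw' h2
      rw [e1] at e2
      exact h3.ne (Option.some.inj e2)
    rcases List.mem_cons.1 hx with e | hx'
    · exact key x y z e hy hz hxy hxz hyz
    rcases List.mem_cons.1 hy with e | hy'
    · exact key y x z e hx hz hxy.symm hyz hxz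
    rcases List.mem_cons.1 hz with e | hz'
    · exact key z x y e hx hy hxz.symm hyz.symm hxy
    exact tdf_notri l h.2.2.2 x hx' y hy' z hz' hxy hxz hyz

theorem st_TDF (hTOK : ST_TOK) : ST_TDF := by
  intro V G D hR hE
  obtain ⟨f, P, hW⟩ := real_iff.1 hR
  obtain ⟨T, W, c0, m0⟩ := D
  simp only [okE, Bool.and_eq_true] at hE
  obtain ⟨⟨⟨⟨⟨⟨hn, -⟩, hp2⟩, -⟩, hoke⟩, hdf⟩, -⟩ := hE
  obtain ⟨hmem, -, -, hok, hokd⟩ := hTOK T
  obtain ⟨hok1, -⟩ := hok hoke
  have hokd := hokd hdf
  have hsym : ∀ (i j : ℕ) (l : List (ℕ × ℕ)), memp i j l = memp j i l := by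
    intro i j l
    have h1 := hmem i j l
    have h2 := hmem j i l
    rw [Bool.eq_iff_iff, h1, h2, or_comm]
  -- no vertex inside a path is in a triangle
  have hin : ∀ {x y z : V}, G.Adj x y → G.Adj x z → G.Adj y z → ∃ i, i < T.n ∧ x = f i := by
    intro x y z hxy hxz hyz
    rcases hW.cov x with h | ⟨e, he, hx⟩
    · exact h
    exfalso
    obtain ⟨⟨a, b⟩, hab⟩ : ∃ p, T.el[e]? = some p := ⟨T.el[e], List.getElem?_eq_getElem he⟩
    obtain ⟨ha, hb, hne, hip, hmm⟩ := hW.pth e a b hab
    have hcov : ∀ {u : V}, G.Adj x u → u ∈ f a :: (P e ++ [f b]) := by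
      intro u hu
      rcases hW.cov u with ⟨i, hi, e1⟩ | ⟨e', he', hu'⟩
      · by_cases ea : i = a
        · rw [e1, ea]; exact List.mem_cons_self
        by_cases eb : i = b
        · rw [e1, eb]; simp
        · exact absurd (e1 ▸ hu) ((hmm x hx i hi).2 ea eb)
      · rcases lt_trichotomy e e' with h | h | h
        · exact absurd hu (hW.sep e e' h he' x hx u hu').2
        · subst h; simp [hu']
        · exact absurd hu.symm (hW.sep e' e h he u hu' x hx).2
    exact tdf_notri _ hip x (by simp [hx]) y (hcov hxy) z (hcov hxz) hxy hxz hyz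
  -- adjacency
  have hadj : ∀ {i j : ℕ}, i < T.n → j < T.n → G.Adj (f i) (f j) → adT T i j = true := by
    intro i j hi hj h
    unfold adT
    rw [Bool.or_eq_true]
    by_cases e1 : memp i j T.el = true
    · exact Or.inr e1
    left
    have e1' : memp i j T.el = false := by simpa using e1
    rcases lt_trichotomy i j with h' | h' | h'
    · exact ((hW.nm i j h' hj).2 e1').1 h
    · exact absurd h (by rw [h']; exact G.loopless.irrefl _)
    · rw [hsym]
      exact ((hW.nm j i h' hi).2 (by rw [hsym]; exact e1')).1 h.symm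
  intro a b c d hab hac hbc had hbd hcd
  obtain ⟨i, hi, rfl⟩ := hin hab hac hbc
  obtain ⟨j, hj, rfl⟩ := hin hab.symm hbc hac
  obtain ⟨k, hk, rfl⟩ := hin hac.symm hbc.symm hab
  obtain ⟨l, hl, rfl⟩ := hin had.symm hbd.symm hab
  have hij : i ≠ j := fun e => hab.ne (by rw [e])
  have hkl : k ≠ l := fun e => hcd (by rw [e])
  have h1 := hokd i j k l hi hj hk hl hij (hadj hi hj hab) (hadj hi hk hac) (hadj hj hk hbc)
    (hadj hi hl had) (hadj hj hl hbd) hkl
  have hel : memp k l T.el = false := by
    by_contra hne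
    have hne : memp k l T.el = true := by simpa using hne
    rcases (hmem k l T.el).1 hne with h | h
    · obtain ⟨e, he⟩ := List.mem_iff_getElem?.1 h
      have := (hok1 e k l he).2.2.2.2.2.1 i hi
      exact this ⟨hadj hk hi hac.symm, hadj hl hi had.symm⟩
    · obtain ⟨e, he⟩ := List.mem_iff_getElem?.1 h
      have := (hok1 e l k he).2.2.2.2.2.1 i hi
      exact this ⟨hadj hl hi had.symm, hadj hk hi hac.symm⟩
  have hrg : memp k l T.rg = true := by
    unfold adT at h1
    rw [hel, Bool.or_false] at h1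
    exact h1
  rcases lt_or_gt_of_ne hkl with h | h
  · exact ((hW.nm k l h hl).2 hel).2 hrg
  · exact (((hW.nm l k h hk).2 (by rw [hsym]; exact hel)).2 (by rw [hsym]; exact hrg)).symm

end Pool.Agent.Helper24.FF
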